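import Pool.Agent.helper20.SOL.Spec

/-! # Project sol: row ALN -/

set_option autoImplicit false

namespace Pool.Agent.SOL

open Pool.Agent.helper54.SOG Finset

open scoped BigOperators

theorem ALN_val {n k : ℕ} {x : Vec n} (hx : x ∈ VA n k) (i : Fin n) :
    x i = 1 ∨ x i = 0 ∨ x i = -1 := by
  have h1 := abs_le.1 (hx.1 i)
  omega

theorem ALN_cnt {n k : ℕ} {x : Vec n} (hx : x ∈ VA n k) :
    (univ.filter fun p => x p = 1).card = k ∧ (univ.filter fun p => x p = -1).card = k ∧
      (univ.filter fun p => x p = 0).card + 2 * k = n := by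
  have e1 : ∑ p, x p = ∑ p, (if x p = 1 then (1 : ℤ) else 0) -
      ∑ p, (if x p = -1 then (1 : ℤ) else 0) := by
    rw [← Finset.sum_sub_distrib]
    refine Finset.sum_congr rfl fun p _ => ?_
    rcases ALN_val hx p with h | h | h <;> rw [h] <;> norm_num
  have e2 : dp x x = ∑ p, (if x p = 1 then (1 : ℤ) else 0) +
      ∑ p, (if x p = -1 then (1 : ℤ) else 0) := by
    unfold dp
    rw [← Finset.sum_add_distrib]
    refine Finset.sum_congr rfl fun p _ => ?_
    rcases ALN_val hx p with h | h | h <;> rw [h] <;> norm_num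
  have e3 : (n : ℤ) = ∑ p, (if x p = 1 then (1 : ℤ) else 0) +
      ∑ p, (if x p = -1 then (1 : ℤ) else 0) + ∑ p, (if x p = 0 then (1 : ℤ) else 0) := by
    rw [← Finset.sum_add_distrib, ← Finset.sum_add_distrib]
    have h0 : (n : ℤ) = ∑ _p : Fin n, (1 : ℤ) := by simp
    rw [h0]
    refine Finset.sum_congr rfl fun p _ => ?_
    rcases ALN_val hx p with h | h | h <;> rw [h] <;> norm_num
  rw [Finset.sum_boole, Finset.sum_boole] at e1 e2
  rw [Finset.sum_boole, Finset.sum_boole, Finset.sum_boole] at e3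
  have h4 := hx.2.1
  have h5 := hx.2.2
  omega

theorem ALN_swp {n k : ℕ} {x : Vec n} (hx : x ∈ VA n k) (a b : Fin n) : swp a b x ∈ VA n k := by
  refine ⟨fun i => hx.1 _, ?_, ?_⟩
  · have h1 := Equiv.sum_comp (Equiv.swap a b) x
    exact h1.trans hx.2.1
  · have h1 := Equiv.sum_comp (Equiv.swap a b) (fun p => x p * x p)
    exact h1.trans hx.2.2

theorem ALN_neg {n k : ℕ} {x : Vec n} (hx : x ∈ VA n k) : -x ∈ VA n k := by
  refine ⟨fun i => ?_, ?_, ?_⟩
  · rw [Pi.neg_apply, abs_neg]
    exact hx.1 i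
  · have h1 : ∑ i, (-x) i = -∑ i, x i := by
      rw [← Finset.sum_neg_distrib]
      rfl
    rw [h1, hx.2.1, neg_zero]
  · rw [dp_neg_left, dp_neg_right, neg_neg]
    exact hx.2.2

theorem ALN_same {n k : ℕ} {x x' : Vec n} (hx : x ∈ VA n k) (hx' : x' ∈ VA n k) (a : Fin n) :
    (univ.filter fun p => x p = x' a).card = (univ.filter fun p => x' p = x' a).card := by
  obtain ⟨h1, h2, h3⟩ := ALN_cnt hx
  obtain ⟨h4, h5, h6⟩ := ALN_cnt hx'
  rcases ALN_val hx' a with h | h | h <;> rw [h]
  · rw [h1, h4]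
  · omega
  · rw [h2, h5]

theorem ALN_conn {n k : ℕ} {M : Type} (g : Vec n → M)
    (hg : ∀ x ∈ VA n k, ∀ a b : Fin n, a ≠ b → g (swp a b x) = g x) :
    ∀ (m : ℕ) (x x' : Vec n), x ∈ VA n k → x' ∈ VA n k →
      (univ.filter fun p => x p ≠ x' p).card ≤ m → g x = g x' := by
  intro m
  induction m with
  | zero =>
    intro x x' _ _ hc
    have h1 : (univ.filter fun p => x p ≠ x' p) = ∅ := Finset.card_eq_zero.1 (Nat.le_zero.1 hc)
    have h2 : x = x' := by
      funext p
      by_contra h3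
      have h4 : p ∈ (univ.filter fun p => x p ≠ x' p) :=
        Finset.mem_filter.2 ⟨Finset.mem_univ _, h3⟩
      rw [h1] at h4
      exact absurd h4 (Finset.notMem_empty _)
    rw [h2]
  | succ m ih =>
    intro x x' hx hx' hc
    by_cases hxx : x = x'
    · rw [hxx]
    obtain ⟨a, ha⟩ : ∃ a, x a ≠ x' a := by
      by_contra h
      push Not at h
      exact hxx (funext h)
    obtain ⟨b, hb1, hb2⟩ : ∃ b, x b = x' a ∧ x' b ≠ x' a := by
      by_contra h
      push Not at h
      have h1 : (univ.filter fun p => x p = x' a) ⊂ (univ.filter fun p => x' p = x' a) := by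
        rw [Finset.ssubset_iff_of_subset]
        · exact ⟨a, Finset.mem_filter.2 ⟨Finset.mem_univ _, rfl⟩,
            fun h2 => ha (Finset.mem_filter.1 h2).2⟩
        · intro p hp
          exact Finset.mem_filter.2 ⟨Finset.mem_univ _, h p (Finset.mem_filter.1 hp).2⟩
      have h2 := Finset.card_lt_card h1
      rw [ALN_same hx hx' a] at h2
      exact lt_irrefl _ h2
    have hab : a ≠ b := by
      rintro rfl
      exact hb2 rfl
    rw [← hg x hx a b hab]
    refine ih (swp a b x) x' (ALN_swp hx a b) hx' ?_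
    have h3 : (univ.filter fun p => swp a b x p ≠ x' p) ⊂ (univ.filter fun p => x p ≠ x' p) := by
      rw [Finset.ssubset_iff_of_subset]
      · refine ⟨a, Finset.mem_filter.2 ⟨Finset.mem_univ _, ha⟩, fun h2 => ?_⟩
        refine (Finset.mem_filter.1 h2).2 ?_
        unfold swp
        rw [Equiv.swap_apply_left, hb1]
      · intro p hp
        refine Finset.mem_filter.2 ⟨Finset.mem_univ _, ?_⟩
        have h4 := (Finset.mem_filter.1 hp).2
        by_cases hpa : p = a
        · rw [hpa]
          exact ha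
        by_cases hpb : p = b
        · rw [hpb, hb1]
          exact fun h5 => hb2 h5.symm
        · unfold swp at h4
          rwa [Equiv.swap_apply_of_ne_of_ne hpa hpb] at h4
    have h4 := Finset.card_lt_card h3
    omega

theorem ALN_mk {n k : ℕ} (P Q : Finset (Fin n)) (hPQ : Disjoint P Q) (hP : P.card = k)
    (hQ : Q.card = k) :
    (fun p => (if p ∈ P then (1 : ℤ) else 0) - (if p ∈ Q then (1 : ℤ) else 0)) ∈ VA n k := by
  have hd : ∀ p, ¬(p ∈ P ∧ p ∈ Q) := fun p h => (Finset.disjoint_left.1 hPQ) h.1 h.2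
  refine ⟨fun p => ?_, ?_, ?_⟩
  · by_cases h1 : p ∈ P <;> by_cases h2 : p ∈ Q <;> simp [h1, h2]
  · rw [Finset.sum_sub_distrib, Finset.sum_ite_mem, Finset.sum_ite_mem]
    simp [hP, hQ]
  · unfold dp
    have h1 : ∀ p, ((if p ∈ P then (1 : ℤ) else 0) - (if p ∈ Q then (1 : ℤ) else 0)) *
        ((if p ∈ P then (1 : ℤ) else 0) - (if p ∈ Q then (1 : ℤ) else 0)) =
        (if p ∈ P then (1 : ℤ) else 0) + (if p ∈ Q then (1 : ℤ) else 0) := by
      intro p
      by_cases h1 : p ∈ P <;> by_cases h2 : p ∈ Q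
      · exact absurd ⟨h1, h2⟩ (hd p)
      · simp [h1, h2]
      · simp [h1, h2]
      · simp [h1, h2]
    rw [Finset.sum_congr rfl (fun p _ => h1 p), Finset.sum_add_distrib, Finset.sum_ite_mem,
      Finset.sum_ite_mem]
    simp [hP, hQ]
    ring

theorem ALN_ex3 {n k : ℕ} (hk : 2 ≤ k) (hn : 3 * k ≤ n) {i j l : Fin n} (hij : i ≠ j)
    (hil : i ≠ l) (hjl : j ≠ l) : ∃ x ∈ VA n k, x i = 1 ∧ x j = 0 ∧ x l = 0 := by
  classical
  have h1 : (({i, j, l} : Finset (Fin n))ᶜ).card = n - 3 := by
    rw [Finset.card_compl, Fintype.card_fin, Finset.card_eq_three.2 ⟨i, j, l, hij, hil, hjl, rfl⟩]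
  obtain ⟨P, hP, hPc⟩ := Finset.exists_subset_card_eq (s := ({i, j, l} : Finset (Fin n))ᶜ)
    (n := k - 1) (by omega)
  obtain ⟨Q, hQ, hQc⟩ := Finset.exists_subset_card_eq
    (s := (({i, j, l} : Finset (Fin n))ᶜ) \ P) (n := k)
    (by rw [Finset.card_sdiff_of_subset hP]; omega)
  have hnot : ∀ p ∈ ({i, j, l} : Finset (Fin n)), p ∉ P ∧ p ∉ Q := by
    intro p hp
    constructor
    · intro h
      exact (Finset.mem_compl.1 (hP h)) hp
    · intro h
      exact (Finset.mem_compl.1 (Finset.mem_sdiff.1 (hQ h)).1) hp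
  have hi := hnot i (by simp)
  have hj := hnot j (by simp)
  have hl := hnot l (by simp)
  refine ⟨_, ALN_mk (insert i P) Q ?_ ?_ hQc, ?_, ?_, ?_⟩
  · rw [Finset.disjoint_insert_left]
    refine ⟨hi.2, ?_⟩
    rw [Finset.disjoint_left]
    intro p hp hq
    exact (Finset.mem_sdiff.1 (hQ hq)).2 hp
  · rw [Finset.card_insert_of_notMem hi.1, hPc]
    omega
  · simp [hi.2]
  · simp [hj.1, hj.2, hij.symm]
  · simp [hl.1, hl.2, hil.symm]

/-- the case `k = 1`. -/
theorem ALN_one {n : ℕ} {M : Type} [AddCommGroup M] [Module ℝ M] (f : Vec n → M) (hn : 3 ≤ n)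
    (hf : AddOn (VA n 1) f) : ∃ T : Fin n → M, ∀ x ∈ VA n 1, f x = ∑ i, (x i : ℝ) • T i := by
  classical
  let o : Fin n := ⟨0, by omega⟩
  let E : Fin n → Fin n → Vec n := fun i j p =>
    (if p ∈ ({i} : Finset (Fin n)) then (1 : ℤ) else 0) -
      (if p ∈ ({j} : Finset (Fin n)) then (1 : ℤ) else 0)
  have hE : ∀ i j, i ≠ j → E i j ∈ VA n 1 := by
    intro i j hij
    exact ALN_mk {i} {j} (Finset.disjoint_singleton.2 hij) (Finset.card_singleton _)
      (Finset.card_singleton _)
  have hneg : ∀ i j, -E i j = E j i := by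
    intro i j
    funext p
    simp only [E, Pi.neg_apply]
    ring
  have hsub : ∀ i j l, E i l - E j l = E i j := by
    intro i j l
    funext p
    simp only [E, Pi.sub_apply]
    ring
  refine ⟨fun i => if i = o then 0 else f (E i o), ?_⟩
  intro x hx
  obtain ⟨h1, h2, -⟩ := ALN_cnt hx
  obtain ⟨i, hi⟩ := Finset.card_eq_one.1 h1
  obtain ⟨j, hj⟩ := Finset.card_eq_one.1 h2
  have hij : i ≠ j := by
    rintro rfl
    have h3 : i ∈ (univ.filter fun p => x p = 1) := by rw [hi]; exact Finset.mem_singleton_self _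
    have h4 : i ∈ (univ.filter fun p => x p = -1) := by rw [hj]; exact Finset.mem_singleton_self _
    have h5 := (Finset.mem_filter.1 h3).2
    have h6 := (Finset.mem_filter.1 h4).2
    omega
  have hxE : x = E i j := by
    funext p
    have h3 : p ∈ ({i} : Finset (Fin n)) ↔ x p = 1 := by
      rw [← hi, Finset.mem_filter]
      exact ⟨fun h => h.2, fun h => ⟨Finset.mem_univ _, h⟩⟩
    have h4 : p ∈ ({j} : Finset (Fin n)) ↔ x p = -1 := by
      rw [← hj, Finset.mem_filter]
      exact ⟨fun h => h.2, fun h => ⟨Finset.mem_univ _, h⟩⟩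
    show x p = (if p ∈ ({i} : Finset (Fin n)) then (1 : ℤ) else 0) -
      (if p ∈ ({j} : Finset (Fin n)) then (1 : ℤ) else 0)
    rcases ALN_val hx p with h | h | h
    · rw [if_pos (h3.2 h), if_neg (fun h5 => by have := h4.1 h5; omega), h]
      norm_num
    · rw [if_neg (fun h5 => by have := h3.1 h5; omega),
        if_neg (fun h5 => by have := h4.1 h5; omega), h]
      norm_num
    · rw [if_neg (fun h5 => by have := h3.1 h5; omega), if_pos (h4.2 h), h]
      norm_num
  have hsum : ∑ p, (x p : ℝ) • (if p = o then (0 : M) else f (E p o)) =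
      (if i = o then (0 : M) else f (E i o)) - (if j = o then (0 : M) else f (E j o)) := by
    rw [hxE, Fintype.sum_eq_add i j hij]
    · have e1 : E i j i = 1 := by simp [E, hij]
      have e2 : E i j j = -1 := by simp [E, hij.symm]
      rw [e1, e2, Int.cast_one, one_smul, Int.cast_neg, Int.cast_one, neg_one_smul]
      abel
    · rintro p ⟨h3, h4⟩
      have e1 : E i j p = 0 := by simp [E, h3, h4]
      rw [e1, Int.cast_zero, zero_smul]
  rw [hsum, hxE]
  by_cases hio : i = o
  · have hjo : j ≠ o := fun h => hij (hio.trans h.symm)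
    rw [if_pos hio, if_neg hjo, hio, ← hneg, hf.odd _ (hE j o hjo), zero_sub]
  · by_cases hjo : j = o
    · rw [if_neg hio, if_pos hjo, hjo, sub_zero]
    · rw [if_neg hio, if_neg hjo, ← hsub i j o]
      exact hf.add _ (hE i o hio) _ (hE j o hjo) (by rw [hsub]; exact hE i j hij)

theorem ALN (hALP : ALP_stmt) (hAL1 : AL1_stmt) (hAL2 : AL2_stmt) : ALN_stmt := by
  classical
  intro n k M _ _ f hk hn hnk hf
  rcases Nat.lt_or_ge 1 k with hk2 | hk1
  swap
  · have h1 : k = 1 := le_antisymm hk1 hk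
    subst h1
    exact ALN_one f (by omega) hf
  have hk2' : 2 ≤ k := hk2
  have hswp_add : ∀ (x y : Vec n) (i j : Fin n), swp i j x - swp i j y = swp i j (x - y) :=
    fun x y i j => rfl
  have hswp_swp : ∀ (x : Vec n) (i j : Fin n), swp i j (swp i j x) = x := by
    intro x i j
    funext p
    unfold swp
    rw [Equiv.swap_apply_self]
  have hswp_eq : ∀ (x : Vec n) (i j : Fin n), x i = x j → swp i j x = x := by
    intro x i j h
    funext p
    unfold swp
    by_cases hpi : p = i
    · rw [hpi, Equiv.swap_apply_left, h]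
    by_cases hpj : p = j
    · rw [hpj, Equiv.swap_apply_right, h]
    rw [Equiv.swap_apply_of_ne_of_ne hpi hpj]
  -- the differences
  have hconst : ∀ (i j : Fin n) (u w : ℤ), i ≠ j → ∀ x ∈ VA n k, ∀ x' ∈ VA n k, x i = u →
      x j = w → x' i = u → x' j = w → f x - f (swp i j x) = f x' - f (swp i j x') := by
    intro i j u w hij
    refine hAL2 n k M (fun x => f x - f (swp i j x)) i j u w hij ?_
    intro x hx _ _ l m hlm hli hlj hmi hmj
    have h1 := hAL1 n k M f hk2' hn hnk hf x hx i j l m hij hli.symm hmi.symm hlj.symm hmj.symm hlm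
    have h2 : f (swp l m x) - f (swp i j (swp l m x)) - (f x - f (swp i j x)) =
        -(f x - f (swp i j x) - f (swp l m x) + f (swp i j (swp l m x))) := by abel
    rw [h1, neg_zero] at h2
    exact sub_eq_zero.1 h2
  have hadd : ∀ (i j : Fin n) (x y : Vec n), x ∈ VA n k → y ∈ VA n k → x - y ∈ VA n k →
      f x - f (swp i j x) = (f y - f (swp i j y)) + (f (x - y) - f (swp i j (x - y))) := by
    intro i j x y hx hy hxy
    have h1 := hf.add x hx y hy hxy
    have h2 := hf.add (swp i j x) (ALN_swp hx i j) (swp i j y) (ALN_swp hy i j)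
      (by rw [hswp_add]; exact ALN_swp hxy i j)
    rw [hswp_add] at h2
    rw [h1, h2]
    abel
  have hex2 : ∀ i j : Fin n, i ≠ j → ∃ x ∈ VA n k, x i = 1 ∧ x j = 0 := by
    intro i j hij
    obtain ⟨l, hl⟩ : ∃ l : Fin n, l ∉ ({i, j} : Finset (Fin n)) := by
      by_contra h
      push Not at h
      have h1 : (univ : Finset (Fin n)) ⊆ {i, j} := fun p _ => h p
      have h2 := Finset.card_le_card h1
      rw [Finset.card_univ, Fintype.card_fin] at h2
      have h3 := Finset.card_le_two (a := i) (b := j)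
      omega
    simp only [Finset.mem_insert, Finset.mem_singleton, not_or] at hl
    obtain ⟨x, hx, h1, h2, -⟩ := ALN_ex3 hk2' hn hij (fun h => hl.1 h.symm) (fun h => hl.2 h.symm)
    exact ⟨x, hx, h1, h2⟩
  have hd : ∀ i j : Fin n, ∃ d : M, i ≠ j → ∀ x ∈ VA n k,
      f x - f (swp i j x) = ((x i : ℝ) - (x j : ℝ)) • d := by
    intro i j
    by_cases hij : i = j
    · exact ⟨0, fun h => absurd hij h⟩
    obtain ⟨x1, hx1, hx1i, hx1j⟩ := hex2 i j hij
    refine ⟨f x1 - f (swp i j x1), fun _ => ?_⟩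
    -- value for (0, -1)
    have hz : ∀ x ∈ VA n k, x i = 0 → x j = -1 →
        f x - f (swp i j x) = f x1 - f (swp i j x1) := by
      intro x hx hxi hxj
      obtain ⟨y, hy, hxy, hyi, hyj⟩ := hALP.2 n k 1 x1 (by omega) hn hx1 i j 1 1 hij (by
        intro a b
        rw [hx1i, hx1j]
        unfold pA
        split_ifs <;> omega)
      have h1 := hadd i j x1 y hx1 hy hxy
      rw [hswp_eq y i j (by rw [hyi, hyj]), sub_self, zero_add] at h1
      rw [h1]
      exact hconst i j 0 (-1) hij x hx (x1 - y) hxy hxi hxj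
        (by rw [Pi.sub_apply, hx1i, hyi]; norm_num) (by rw [Pi.sub_apply, hx1j, hyj]; norm_num)
    have hpos : ∀ x ∈ VA n k, x j < x i →
        f x - f (swp i j x) = ((x i : ℝ) - (x j : ℝ)) • (f x1 - f (swp i j x1)) := by
      intro x hx hlt
      rcases ALN_val hx i with hxi | hxi | hxi <;> rcases ALN_val hx j with hxj | hxj | hxj
      · omega
      · rw [hconst i j 1 0 hij x hx x1 hx1 hxi hxj hx1i hx1j, hxi, hxj]
        simp
      · obtain ⟨y, hy, hxy, hyi, hyj⟩ := hALP.2 n k 1 x (by omega) hn hx i j 1 0 hij (by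
          intro a b
          rw [hxi, hxj]
          unfold pA
          split_ifs <;> omega)
        rw [hadd i j x y hx hy hxy, hconst i j 1 0 hij y hy x1 hx1 hyi hyj hx1i hx1j,
          hz (x - y) hxy (by rw [Pi.sub_apply, hxi, hyi]; norm_num)
            (by rw [Pi.sub_apply, hxj, hyj]; norm_num), hxi, hxj, ← two_smul ℝ]
        norm_num
      · omega
      · omega
      · rw [hz x hx hxi hxj, hxi, hxj]
        simp
      · omega
      · omega
      · omega
    intro x hx
    rcases lt_trichotomy (x i) (x j) with h | h | h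
    · have h1 := hpos (swp i j x) (ALN_swp hx i j) (by
        unfold swp
        rw [Equiv.swap_apply_left, Equiv.swap_apply_right]
        exact h)
      rw [hswp_swp] at h1
      have h2 : swp i j x i = x j := by
        unfold swp
        rw [Equiv.swap_apply_left]
      have h3 : swp i j x j = x i := by
        unfold swp
        rw [Equiv.swap_apply_right]
      rw [h2, h3] at h1
      rw [← neg_sub (f (swp i j x)) (f x), h1, ← neg_smul]
      congr 1
      ring
    · rw [hswp_eq x i j h, sub_self, h, sub_self, zero_smul]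
    · exact hpos x hx h
  choose d hd using hd
  have hdx : ∀ i j : Fin n, i ≠ j → ∀ x ∈ VA n k, x i = 1 → x j = 0 →
      f x - f (swp i j x) = d i j := by
    intro i j hij x hx hxi hxj
    rw [hd i j hij x hx, hxi, hxj]
    simp
  have hanti : ∀ i j : Fin n, i ≠ j → d j i = -d i j := by
    intro i j hij
    obtain ⟨x, hx, hxi, hxj⟩ := hex2 i j hij
    have h1 := hdx i j hij x hx hxi hxj
    have h2 := hd j i hij.symm x hx
    have h3 : swp j i x = swp i j x := by
      unfold swp
      rw [Equiv.swap_comm]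
    rw [h3, h1, hxi, hxj] at h2
    rw [h2]
    simp
  have htri : ∀ i j l : Fin n, i ≠ j → i ≠ l → j ≠ l → d i j + d j l = d i l := by
    intro i j l hij hil hjl
    obtain ⟨x, hx, hxi, hxj, hxl⟩ := ALN_ex3 hk2' hn hij hil hjl
    have h1 := hdx i j hij x hx hxi hxj
    have h2 := hdx i l hil x hx hxi hxl
    have h3 := hdx j l hjl (swp i j x) (ALN_swp hx i j)
      (by unfold swp; rw [Equiv.swap_apply_right, hxi])
      (by unfold swp; rw [Equiv.swap_apply_of_ne_of_ne hil.symm hjl.symm, hxl])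
    have h4 : swp j l (swp i j x) = swp i l x := by
      funext p
      unfold swp
      by_cases hpi : p = i
      · rw [hpi, Equiv.swap_apply_of_ne_of_ne hij hil, Equiv.swap_apply_left,
          Equiv.swap_apply_left, hxj, hxl]
      by_cases hpj : p = j
      · rw [hpj, Equiv.swap_apply_left, Equiv.swap_apply_of_ne_of_ne hil.symm hjl.symm,
          Equiv.swap_apply_of_ne_of_ne hij.symm hjl, hxj, hxl]
      by_cases hpl : p = l
      · rw [hpl, Equiv.swap_apply_right, Equiv.swap_apply_right, Equiv.swap_apply_right]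
      rw [Equiv.swap_apply_of_ne_of_ne hpj hpl, Equiv.swap_apply_of_ne_of_ne hpi hpj,
        Equiv.swap_apply_of_ne_of_ne hpi hpl]
    rw [h4] at h3
    rw [← h1, ← h2, ← h3]
    abel
  let o : Fin n := ⟨0, by omega⟩
  let T : Fin n → M := fun i => if i = o then 0 else d i o
  have hTo : T o = 0 := if_pos rfl
  have hTi : ∀ i, i ≠ o → T i = d i o := fun i hi => if_neg hi
  have hdT : ∀ i j : Fin n, i ≠ j → d i j = T i - T j := by
    intro i j hij
    by_cases hio : i = o
    · have hjo : j ≠ o := fun h => hij (hio.trans h.symm)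
      rw [hio, hTo, hTi j hjo, zero_sub, ← hanti j o hjo]
    · by_cases hjo : j = o
      · rw [hjo, hTo, hTi i hio, sub_zero]
      · rw [hTi i hio, hTi j hjo, ← htri i o j hio hij (fun h => hjo h.symm), hanti j o hjo]
        abel
  refine ⟨T, ?_⟩
  have hinv : ∀ x ∈ VA n k, ∀ i j : Fin n, i ≠ j →
      f (swp i j x) - ∑ p, (swp i j x p : ℝ) • T p = f x - ∑ p, (x p : ℝ) • T p := by
    intro x hx i j hij
    have h1 := hd i j hij x hx
    rw [hdT i j hij] at h1
    have h2 : ∑ p, (swp i j x p : ℝ) • T p = ∑ p, (x p : ℝ) • T (Equiv.swap i j p) := by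
      rw [← Equiv.sum_comp (Equiv.swap i j) (fun p => (x p : ℝ) • T (Equiv.swap i j p))]
      refine Finset.sum_congr rfl fun p _ => ?_
      rw [Equiv.swap_apply_self]
      rfl
    have h3 : ∑ p, (x p : ℝ) • T p - ∑ p, (swp i j x p : ℝ) • T p =
        ((x i : ℝ) - (x j : ℝ)) • (T i - T j) := by
      rw [h2, ← Finset.sum_sub_distrib, Fintype.sum_eq_add i j hij]
      · rw [Equiv.swap_apply_left, Equiv.swap_apply_right, ← smul_sub, ← smul_sub, sub_smul,
          ← neg_sub (T i) (T j), smul_neg]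
        abel
      · rintro p ⟨hpi, hpj⟩
        rw [Equiv.swap_apply_of_ne_of_ne hpi hpj, sub_self]
    rw [← h3] at h1
    have h4 : f (swp i j x) - ∑ p, (swp i j x p : ℝ) • T p -
        (f x - ∑ p, (x p : ℝ) • T p) =
        (∑ p, (x p : ℝ) • T p - ∑ p, (swp i j x p : ℝ) • T p) - (f x - f (swp i j x)) := by abel
    rw [h1, sub_self] at h4
    exact sub_eq_zero.1 h4
  intro x hx
  have h1 : f x - ∑ p, (x p : ℝ) • T p = f (-x) - ∑ p, ((-x) p : ℝ) • T p :=
    ALN_conn (fun x => f x - ∑ p, (x p : ℝ) • T p) hinv _ x (-x) hx (ALN_neg hx) le_rfl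
  have h2 : ∑ p, ((-x) p : ℝ) • T p = -∑ p, (x p : ℝ) • T p := by
    rw [← Finset.sum_neg_distrib]
    refine Finset.sum_congr rfl fun p _ => ?_
    rw [Pi.neg_apply, Int.cast_neg, neg_smul]
  rw [hf.odd x hx, h2] at h1
  have h3 : (2 : ℝ) • (f x - ∑ p, (x p : ℝ) • T p) = 0 := by
    rw [two_smul]
    nth_rewrite 2 [h1]
    abel
  have h4 := (smul_eq_zero.1 h3).resolve_left two_ne_zero
  exact sub_eq_zero.1 h4

end Pool.Agent.SOL
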