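import Pool.Agent.helper20.SOL.Spec

/-! # Project sol: row LX5 -/

set_option autoImplicit false

namespace Pool.Agent.SOL

open Pool.Agent.helper54.SOG Finset

open scoped BigOperators

theorem LX5_flp_zero {n : ℕ} {i : Fin n} {x : Vec n} (h : x i = 0) : flp i x = x := by
  funext j
  unfold flp
  by_cases hj : j = i
  · rw [if_pos hj, hj, h, neg_zero]
  · rw [if_neg hj]

theorem LX5_flp_flp {n : ℕ} (i : Fin n) (x : Vec n) : flp i (flp i x) = x := by
  funext j
  unfold flp
  by_cases hj : j = i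
  · rw [if_pos hj, if_pos hj, neg_neg]
  · rw [if_neg hj, if_neg hj]

theorem LX5_flp_comm {n : ℕ} (i j : Fin n) (x : Vec n) : flp i (flp j x) = flp j (flp i x) := by
  funext k
  unfold flp
  by_cases h1 : k = i <;> by_cases h2 : k = j
  · rw [if_pos h1, if_pos h2, if_pos h2, if_pos h1]
  · rw [if_pos h1, if_neg h2, if_neg h2, if_pos h1]
  · rw [if_neg h1, if_pos h2, if_pos h2, if_neg h1]
  · rw [if_neg h1, if_neg h2, if_neg h2, if_neg h1]

theorem LX5_flp_ne {n : ℕ} {i j : Fin n} (h : i ≠ j) (x : Vec n) : flp j x i = x i := by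
  unfold flp
  rw [if_neg h]

theorem LX5_flp_self {n : ℕ} (i : Fin n) (x : Vec n) : flp i x i = -x i := by
  unfold flp
  rw [if_pos rfl]

theorem LX5 (hCNT : CNT_stmt) (hLX1 : LX1_stmt) (hLX2 : LX2_stmt) (hLX3 : LX3_stmt)
    (hLX4 : LX4_stmt) : LX5_stmt := by
  classical
  intro n t s M _ _ f v hf h1 h2 h2' h3
  obtain ⟨-, -, -, hflp, -, -, -, -⟩ := hCNT
  have hfl : ∀ x ∈ TD n t s, ∀ i, flp i x ∈ TD n t s := fun x hx i => hflp n t s x i hx
  -- mixed differences
  have hmix : ∀ x ∈ TD n t s, ∀ i j, i ≠ j →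
      f x - f (flp i x) - f (flp j x) + f (flp i (flp j x)) = 0 := by
    intro x hx i j hij
    by_cases hi : x i = 0
    · have e1 : flp i x = x := LX5_flp_zero hi
      have e2 : flp i (flp j x) = flp j x := LX5_flp_zero (by rw [LX5_flp_ne hij, hi])
      rw [e1, e2]
      abel
    by_cases hj : x j = 0
    · have e1 : flp j x = x := LX5_flp_zero hj
      rw [e1]
      abel
    obtain ⟨y, hy, hxy, h4⟩ := h1 x hx i j hij hi hj
    rcases h4 with ⟨h4, h5⟩ | ⟨h4, h5⟩
    · exact (hLX1 n t s M f hf x hx y hy hxy).1 i j hij h4 h5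
    · have h6 := (hLX1 n t s M f hf x hx y hy hxy).1 j i hij.symm h4 h5
      rw [LX5_flp_comm i j, ← h6]
      abel
  -- the differences depend only on the coordinate
  have hconst : ∀ (i : Fin n) (w : ℤ), w ≠ 0 → ∀ x ∈ TD n t s, ∀ x' ∈ TD n t s, x i = w →
      x' i = w → f x - f (flp i x) = f x' - f (flp i x') := by
    intro i w hw
    refine hLX3 n t s M (fun x => f x - f (flp i x)) i w (v |w|) ?_ ?_ ?_
    · intro x hx _ j hj
      have h4 := hmix x hx i j hj.symm
      have h5 : f (flp j x) - f (flp i (flp j x)) - (f x - f (flp i x)) =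
          -(f x - f (flp i x) - f (flp j x) + f (flp i (flp j x))) := by abel
      rw [h4, neg_zero] at h5
      exact sub_eq_zero.1 h5
    · intro x hx hxw a b ha hb hxa hxb
      obtain ⟨y, hy, hxy, h4, h5⟩ := h2 x hx i a b (by rw [hxw]; exact hw) ha hb
        (by rw [hxw]; exact hxa) (by rw [hxw]; exact hxb)
      exact hLX2 n t s M f hf hmix x hx y hy hxy i a b ha hb h4 h5
    · intro x hx hxw a b ha hb hxa hxb hab
      obtain ⟨c, hc, hxc⟩ := h2' x hx i a b (by rw [hxw]; exact hw) ha hb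
        (by rw [hxw]; exact hxa) (by rw [hxw]; exact hxb) hab
      exact ⟨c, hc, by rw [hxc, hxw]⟩
  -- the coefficients
  have hT : ∀ i : Fin n, ∃ T : M, ∀ x ∈ TD n t s, 0 < x i →
      f x - f (flp i x) = (2 * (x i : ℝ)) • T := by
    intro i
    have hx12 : ∀ x ∈ TD n t s, 0 < x i → x i = 1 ∨ x i = 2 := by
      intro x hx hpos
      have h4 : |x i| ≤ 2 := hx.1 i
      have h5 := (abs_le.1 h4).2
      omega
    by_cases P1 : ∃ x ∈ TD n t s, x i = 1
    · obtain ⟨x1, hx1, hx1i⟩ := P1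
      refine ⟨(1 / 2 : ℝ) • (f x1 - f (flp i x1)), ?_⟩
      intro x hx hpos
      rcases hx12 x hx hpos with h4 | h4
      · rw [hconst i 1 one_ne_zero x hx x1 hx1 h4 hx1i, h4, smul_smul]
        norm_num
      · obtain ⟨x0, hx0, y0, hy0, hxy0, h5, h6⟩ := h3 i ⟨x, hx, h4⟩ ⟨x1, hx1, hx1i⟩
        have h7 := (hLX1 n t s M f hf x0 hx0 y0 hy0 hxy0).2.2 i
        have h8 : (x0 - y0) i = 1 := by
          rw [Pi.sub_apply, h5, h6]
          norm_num
        rw [hconst i 1 one_ne_zero y0 hy0 x1 hx1 h6 hx1i,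
          hconst i 1 one_ne_zero (x0 - y0) hxy0 x1 hx1 h8 hx1i] at h7
        rw [hconst i 2 two_ne_zero x hx x0 hx0 h4 h5, h7, h4, smul_smul, ← two_smul ℝ]
        norm_num
    · by_cases P2 : ∃ x ∈ TD n t s, x i = 2
      · obtain ⟨x2, hx2, hx2i⟩ := P2
        refine ⟨(1 / 4 : ℝ) • (f x2 - f (flp i x2)), ?_⟩
        intro x hx hpos
        rcases hx12 x hx hpos with h4 | h4
        · exact absurd ⟨x, hx, h4⟩ P1
        · rw [hconst i 2 two_ne_zero x hx x2 hx2 h4 hx2i, h4, smul_smul]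
          norm_num
      · refine ⟨0, ?_⟩
        intro x hx hpos
        rcases hx12 x hx hpos with h4 | h4
        · exact absurd ⟨x, hx, h4⟩ P1
        · exact absurd ⟨x, hx, h4⟩ P2
  choose T hT using hT
  refine ⟨T, hLX4 n t s M f T hf.odd ?_⟩
  intro x hx i
  rcases lt_trichotomy (x i) 0 with h4 | h4 | h4
  · have h5 : 0 < flp i x i := by
      rw [LX5_flp_self]
      omega
    have h6 := hT i (flp i x) (hfl x hx i) h5
    rw [LX5_flp_flp, LX5_flp_self] at h6
    have h7 : f x - f (flp i x) = -(f (flp i x) - f x) := by abel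
    rw [h7, h6, ← neg_smul]
    congr 1
    push_cast
    ring
  · rw [LX5_flp_zero h4, h4, sub_self]
    simp
  · exact hT i x hx h4

end Pool.Agent.SOL
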