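import Pool.Agent.helper20.SOL.SpecN

set_option autoImplicit false

/-! Row NA (after the proof of row ND by helper34) -/

namespace Pool.Agent.SOL

open Pool.Agent.helper54.SOG Finset

open scoped BigOperators

/-- vectors with entries in `{0, 1, -1}` with given square sum and given sum -/
def NA_W (n : ℕ) (m s : ℤ) : Set (Vec n) := {x | (∀ i, |x i| ≤ 1) ∧ ∑ i, x i = s ∧ dp x x = m}

/-- their number -/
def NA_w : ℕ → ℤ → ℤ → ℕ
  | 0, m, s => if m = 0 ∧ s = 0 then 1 else 0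
  | n + 1, m, s => NA_w n m s + NA_w n (m - 1) (s - 1) + NA_w n (m - 1) (s + 1)

/-- vectors with given first entry -/
def NA_c {n : ℕ} (v : ℤ) (S : Set (Vec n)) : Set (Vec (n + 1)) :=
  {x | x 0 = v ∧ (fun i : Fin n => x i.succ) ∈ S}

theorem NA_c_eq {n : ℕ} (v : ℤ) (S : Set (Vec n)) :
    NA_c v S = (fun y : Vec n => (Fin.cons v y : Vec (n + 1))) '' S := by
  ext x
  constructor
  · rintro ⟨h1, h2⟩
    refine ⟨_, h2, ?_⟩
    funext i
    refine Fin.cases ?_ (fun j => ?_) i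
    · show v = x 0
      exact h1.symm
    · rfl
  · rintro ⟨y, hy, rfl⟩
    exact ⟨rfl, hy⟩

theorem NA_c_finite {n : ℕ} (v : ℤ) (S : Set (Vec n)) (hS : S.Finite) : (NA_c v S).Finite := by
  rw [NA_c_eq]
  exact hS.image _

theorem NA_c_ncard {n : ℕ} (v : ℤ) (S : Set (Vec n)) : (NA_c v S).ncard = S.ncard := by
  rw [NA_c_eq]
  apply Set.ncard_image_of_injective
  intro y z h
  funext i
  exact congrFun h i.succ

theorem NA_c_disj {n : ℕ} (v v' : ℤ) (hv : v ≠ v') (S S' : Set (Vec n)) :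
    Disjoint (NA_c v S) (NA_c v' S') := by
  rw [Set.disjoint_left]
  rintro x ⟨h1, _⟩ ⟨h2, _⟩
  exact hv (h1.symm.trans h2)

theorem NA_step (n : ℕ) (m s : ℤ) : NA_W (n + 1) m s =
    NA_c 0 (NA_W n m s) ∪ (NA_c 1 (NA_W n (m - 1) (s - 1)) ∪ NA_c (-1) (NA_W n (m - 1) (s + 1))) := by
  ext x
  set y : Vec n := fun i => x i.succ with hy
  have h1 : x ∈ NA_W (n + 1) m s ↔ |x 0| ≤ 1 ∧ (∀ i, |y i| ≤ 1) ∧ x 0 + ∑ i, y i = s ∧
      x 0 * x 0 + dp y y = m := by
    show (∀ i, |x i| ≤ 1) ∧ ∑ i, x i = s ∧ dp x x = m ↔ _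
    rw [Fin.forall_fin_succ]
    have e1 : dp x x = x 0 * x 0 + dp y y := Fin.sum_univ_succ _
    have e2 : ∑ i, x i = x 0 + ∑ i, y i := Fin.sum_univ_succ _
    rw [e1, e2, and_assoc]
  have h2 : ∀ (v m' s' : ℤ), x ∈ NA_c v (NA_W n m' s') ↔
      x 0 = v ∧ (∀ i, |y i| ≤ 1) ∧ ∑ i, y i = s' ∧ dp y y = m' := fun _ _ _ => Iff.rfl
  rw [h1]
  simp only [Set.mem_union, h2]
  constructor
  · rintro ⟨a, b, c, d⟩
    have h3 := abs_le.1 a
    have h4 : x 0 = 0 ∨ x 0 = 1 ∨ x 0 = -1 := by omega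
    rcases h4 with h | h | h
    · refine Or.inl ⟨h, b, ?_, ?_⟩
      · rw [h] at c
        linarith
      · rw [h] at d
        linarith
    · refine Or.inr (Or.inl ⟨h, b, ?_, ?_⟩)
      · rw [h] at c
        linarith
      · rw [h] at d
        linarith
    · refine Or.inr (Or.inr ⟨h, b, ?_, ?_⟩)
      · rw [h] at c
        linarith
      · rw [h] at d
        linarith
  · rintro (⟨h, b, c, d⟩ | ⟨h, b, c, d⟩ | ⟨h, b, c, d⟩)
    · rw [h]
      exact ⟨by norm_num, b, by linarith, by linarith⟩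
    · rw [h]
      exact ⟨by norm_num, b, by linarith, by linarith⟩
    · rw [h]
      exact ⟨by norm_num, b, by linarith, by linarith⟩

theorem NA_fin (n : ℕ) : ∀ m s : ℤ, (NA_W n m s).Finite := by
  induction n with
  | zero => intro m s; exact Set.toFinite _
  | succ n ih =>
    intro m s
    rw [NA_step]
    exact (NA_c_finite _ _ (ih _ _)).union ((NA_c_finite _ _ (ih _ _)).union
      (NA_c_finite _ _ (ih _ _)))

theorem NA_count (n : ℕ) : ∀ m s : ℤ, (NA_W n m s).ncard = NA_w n m s := by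
  induction n with
  | zero =>
    intro m s
    have h0 : ∀ x : Vec 0, dp x x = 0 := fun x => by simp [dp]
    have h1 : ∀ x : Vec 0, ∑ i, x i = 0 := fun x => by simp
    by_cases h : m = 0 ∧ s = 0
    · have h2 : NA_W 0 m s = {fun i => i.elim0} := by
        ext x
        constructor
        · intro _
          exact Subsingleton.elim _ _
        · intro _
          refine ⟨fun i => i.elim0, ?_, ?_⟩
          · rw [h1, h.2]
          · rw [h0, h.1]
      rw [h2, Set.ncard_singleton]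
      show 1 = if m = 0 ∧ s = 0 then 1 else 0
      rw [if_pos h]
    · have h2 : NA_W 0 m s = ∅ := by
        rw [Set.eq_empty_iff_forall_notMem]
        rintro x ⟨_, h3, h4⟩
        rw [h1] at h3
        rw [h0] at h4
        exact h ⟨h4.symm, h3.symm⟩
      rw [h2, Set.ncard_empty]
      show 0 = if m = 0 ∧ s = 0 then 1 else 0
      rw [if_neg h]
  | succ n ih =>
    intro m s
    have f1 := NA_c_finite 0 _ (NA_fin n m s)
    have f2 := NA_c_finite 1 _ (NA_fin n (m - 1) (s - 1))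
    have f3 := NA_c_finite (-1) _ (NA_fin n (m - 1) (s + 1))
    have d2 := NA_c_disj 1 (-1) (by norm_num) (NA_W n (m - 1) (s - 1)) (NA_W n (m - 1) (s + 1))
    have d1 : Disjoint (NA_c 0 (NA_W n m s))
        (NA_c 1 (NA_W n (m - 1) (s - 1)) ∪ NA_c (-1) (NA_W n (m - 1) (s + 1))) :=
      Set.disjoint_union_right.2 ⟨NA_c_disj _ _ (by norm_num) _ _, NA_c_disj _ _ (by norm_num) _ _⟩
    rw [NA_step, Set.ncard_union_eq d1 f1 (f2.union f3), Set.ncard_union_eq d2 f2 f3]
    simp only [NA_c_ncard, ih]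
    show _ = NA_w n m s + NA_w n (m - 1) (s - 1) + NA_w n (m - 1) (s + 1)
    ring

theorem NA_VA (n k : ℕ) : (VA n k).ncard = NA_w n (2 * (k : ℤ)) 0 :=
  NA_count n (2 * (k : ℤ)) 0

theorem NA : NA_stmt := by
  unfold NA_stmt
  simp only [NA_VA]
  decide +kernel

end Pool.Agent.SOL
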