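import Pool.Agent.helper20.SOL.SpecP

set_option autoImplicit false

namespace Pool.Agent.SOL

open Finset

open scoped BigOperators

/-- the entries of the elements of `TD n k 0` are even -/
theorem CCO_even {n k : ℕ} {x : Vec n} (hx : x ∈ TD n k 0) (i : Fin n) : (2 : ℤ) ∣ x i := by
  have h1 : |x i| ≤ 2 := hx.1 i
  have h2 : |x i| ≠ 1 := by
    intro h
    have h3 : cnt x 1 = 0 := hx.2.2
    unfold cnt at h3
    rw [Finset.card_eq_zero] at h3
    have h4 : i ∈ univ.filter fun i => |x i| = 1 := mem_filter.mpr ⟨mem_univ _, h⟩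
    rw [h3] at h4
    exact absurd h4 (Finset.notMem_empty _)
  rw [abs_le] at h1
  have h3 : x i = -2 ∨ x i = -1 ∨ x i = 0 ∨ x i = 1 ∨ x i = 2 := by omega
  rcases h3 with h | h | h | h | h
  · rw [h]; norm_num
  · rw [h] at h2; norm_num at h2
  · rw [h]; norm_num
  · rw [h] at h2; norm_num at h2
  · rw [h]

theorem CCO_dp {n k k' : ℕ} {a b : Vec n} (ha : a ∈ TD n k 0) (hb : b ∈ TD n k' 0) :
    (4 : ℤ) ∣ dp a b := by
  unfold dp
  refine Finset.dvd_sum fun i _ => ?_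
  exact mul_dvd_mul (CCO_even ha i) (CCO_even hb i)

theorem CCO_exists {n k : ℕ} (hk : 1 ≤ k) (hkn : k < n) {i j : Fin n} (hij : i ≠ j) :
    ∃ x ∈ TD n k 0, x i = 2 ∧ x j = 0 := by
  obtain ⟨σ, h1, h2⟩ := exists_perm (i' := (⟨0, by omega⟩ : Fin n)) (j' := ⟨k, by omega⟩) hij
    (by
      intro h1
      have := congrArg Fin.val h1
      simp at this
      omega)
  refine ⟨fun l => std n k 0 (σ l), TD_perm σ (std_mem (by omega)), ?_, ?_⟩
  · show std n k 0 (σ i) = 2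
    rw [h1]
    unfold std
    have h3 : 0 < k := by omega
    simp only [h3, if_true]
  · show std n k 0 (σ j) = 0
    rw [h2]
    unfold std
    simp

theorem CCO_key {n d : ℕ} (T : Fin n → Fin d → ℝ) (i j : Fin n) (hij : i ≠ j) (x : Vec n)
    (hi : x i = 2) (hj : x j = 0) :
    ∑ l, (x l : ℝ) • T l - ∑ l, ((swp i j x) l : ℝ) • T l = (2 : ℝ) • (T i - T j) := by
  have e1 : ∀ l, ((x l : ℝ) • T l - ((swp i j x) l : ℝ) • T l) =
      (if l = i then (2 : ℝ) • T i else 0) - (if l = j then (2 : ℝ) • T j else 0) := by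
    intro l
    unfold swp
    by_cases h1 : l = i
    · subst h1
      rw [Equiv.swap_apply_left, hi, hj, if_pos rfl, if_neg hij]
      simp
    · by_cases h2 : l = j
      · subst h2
        rw [Equiv.swap_apply_right, hi, hj, if_pos rfl, if_neg h1]
        simp
      · rw [Equiv.swap_apply_of_ne_of_ne h1 h2, if_neg h1, if_neg h2]
        simp
  rw [← Finset.sum_sub_distrib, Finset.sum_congr rfl (fun l _ => e1 l), Finset.sum_sub_distrib,
    Finset.sum_ite_eq', Finset.sum_ite_eq', if_pos (mem_univ _), if_pos (mem_univ _), smul_sub]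

theorem CCO (hCNT : CNT_stmt) (hDSM : DSM_stmt) (hBTY : BTY_stmt) (hSYA : SYA_stmt)
    (hTHS : THS_stmt) (hODG : ODG_stmt) (hSHC : SHC_stmt) (hGLC : GLC_stmt) (hGCC : GCC_stmt)
    (hNSC : NSC_stmt) : CCO_stmt := by
  intro n k n' k' hk hg hg' hiso
  obtain ⟨ψ⟩ := hiso
  obtain ⟨hn3, hk1, hkn⟩ := hg
  obtain ⟨hn3', hk1', hkn'⟩ := hg'
  obtain ⟨_, _, _, _, c5, c6, _, _⟩ := hCNT
  obtain ⟨_, b2, b3, _, _, _, b7, b8⟩ := hBTY
  have hS : Sy (VC n k) := (b7 n k hk1).2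
  have hS' : Sy (VC n' k') := (b7 n' k' hk1').2
  have hTDV : ∀ x ∈ TD n k 0, x ∈ VC n k := by
    intro x hx
    rw [b2]
    refine ⟨hx.1, ?_⟩
    rw [hx.2.1, hx.2.2]
    omega
  obtain ⟨_, _, _, s4, _, _, _, _⟩ := hSYA n n' (VC n k) (VC n' k') ψ hS hS'
  obtain ⟨p1, _, _, _⟩ := hNSC n k ⟨hn3, hk1, hkn⟩
  obtain ⟨p1', _, _, _⟩ := hNSC n' k' ⟨hn3', hk1', hkn'⟩
  have hG : ∀ x ∈ TD n k 0, GPr (VC n k) x := hGCC n k hk hkn
  have hup : ∀ x ∈ TD n k 0, up ψ x ∈ TD n' k' 0 := by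
    intro x hx
    obtain ⟨y, hy, hxy, _, _⟩ := hG x hx
    have h1 : x ∈ NS (VC n k) := by
      rw [p1]
      exact ⟨⟨hTDV x hx, y, hy, hxy⟩, hx⟩
    have h2 := (s4 x (hTDV x hx)).1 h1
    rw [p1'] at h2
    exact h2.2
  have hsharp : ∀ x ∈ TD n k 0, ∀ y' ∈ VC n' k', up ψ x - y' ∈ VC n' k' →
      y' - up ψ x ∈ SS (VC n' k') (up ψ x) y' := by
    intro x hx y' hy' hxy'
    exact (hSHC n' k' (up ψ x) y' hk1' (hup x hx) hy' hxy').1
  have hneg : ∀ x ∈ TD n k 0, up ψ (-x) = -up ψ x := by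
    intro x hx
    exact hODG n n' (VC n k) (VC n' k') ψ hS hS' x (hTDV x hx) (hG x hx) (hsharp x hx)
      (hsharp (-x) (c6 _ _ _ x hx))
  have hodp : ∀ x ∈ TD n k 0, odp ψ x = cv (up ψ x) := by
    intro x hx
    unfold odp
    rw [hneg x hx]
    funext i
    show (1 / 2 : ℝ) * (((up ψ x) i : ℝ) - (((-up ψ x) i : ℤ) : ℝ)) = ((up ψ x) i : ℝ)
    rw [Pi.neg_apply]
    push_cast
    ring
  obtain ⟨t1, t2⟩ := hTHS n n' (VC n k) (VC n' k') ψ (b8 n k).2 hS hS'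
  obtain ⟨T, hT⟩ := hGLC n k (Fin n' → ℝ) (odp ψ) hk hkn t1 t2
  have hT' : ∀ x ∈ TD n k 0, cv (up ψ x) = ∑ i, (x i : ℝ) • T i := by
    intro x hx
    rw [← hodp x hx, hT x hx]
  have hnorm : ∀ a ∈ TD n' k' 0, dp a a = 4 * k' := by
    intro a ha
    rw [b3 n' a ha.1, ha.2.1, ha.2.2]
    push_cast
    ring
  have hkn2 : k < n := by omega
  obtain ⟨n1, n2⟩ := hDSM n n' k 0 (4 * k') T (by omega) (by omega) (by
    intro x hx
    rw [← hT' x hx, cv_dot, hnorm _ (hup x hx)]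
    push_cast
    rfl)
  have hkr : (0 : ℝ) < k := by exact_mod_cast hk1
  have hkr' : (0 : ℝ) < k' := by exact_mod_cast hk1'
  have n1' : ∀ i, T i ⬝ᵥ T i = (k' : ℝ) / k := by
    intro i
    rw [n1 i]
    push_cast
    field_simp
    ring
  constructor
  · have h01 : (⟨0, by omega⟩ : Fin n) ≠ ⟨1, by omega⟩ := by
      intro h1
      have := congrArg Fin.val h1
      simp at this
    obtain ⟨x, hx, hi, hj⟩ := CCO_exists hk1 hkn2 h01
    have hx' := c5 _ _ _ _ (⟨0, by omega⟩ : Fin n) (⟨1, by omega⟩ : Fin n) hx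
    have h2 := CCO_key T _ _ h01 x hi hj
    rw [← hT' x hx, ← hT' _ hx', ← cv_sub] at h2
    have h3 : cv (up ψ x - up ψ (swp (⟨0, by omega⟩ : Fin n) (⟨1, by omega⟩ : Fin n) x)) ⬝ᵥ
        cv (up ψ x - up ψ (swp (⟨0, by omega⟩ : Fin n) (⟨1, by omega⟩ : Fin n) x)) = 8 * (k' : ℝ) / k := by
      rw [h2, smul_dotProduct, dotProduct_smul, sub_dotProduct, dotProduct_sub, dotProduct_sub,
        n1', n1', n2 _ _ h01, n2 _ _ h01.symm, smul_eq_mul, smul_eq_mul]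
      ring
    obtain ⟨c, hc⟩ := CCO_dp (hup x hx) (hup _ hx')
    rw [cv_dot, dp_sub_sub, hnorm _ (hup x hx), hnorm _ (hup _ hx'), hc] at h3
    have h4 : ((k' : ℤ) - c) * k = k' := by
      have h5 : (((k' : ℤ) - c : ℤ) : ℝ) * k = k' := by
        push_cast at h3 ⊢
        field_simp at h3
        linarith
      exact_mod_cast h5
    have h5 : (k : ℤ) ∣ (k' : ℤ) := ⟨(k' : ℤ) - c, by rw [mul_comm]; exact h4.symm⟩
    exact_mod_cast h5
  · refine rank_orth (T := T) (c := (k' : ℝ) / k) (by positivity) n1' n2 (W := ⊤)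
      (fun i => Submodule.mem_top) ?_
    rw [finrank_top, Module.finrank_fin_fun]

end Pool.Agent.SOL
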